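import Pool.Agent.W619.Y.Parts
import Pool.Agent.Y172.Cov3

/-!
The numerical dimension of dominated varieties.
-/

set_option autoImplicit false
set_option linter.overlappingInstances false
set_option linter.unusedSectionVars false

open FF Pool.Agent.W602.GT Pool.Agent.W619.TW Pool.Agent.W619.Y

namespace Pool.Agent.T2h09.ND

theorem numLe_down {K L : Type} [Field K] [Field L] [Algebra ℂ K] [Algebra ℂ L] [Algebra K L]
    [IsScalarTower ℂ K L] [FiniteDimensional K L] [Algebra.EssFiniteType ℂ K] {n a : ℕ}
    (hn : Algebra.trdeg ℂ K = n) (h : NumLe ℂ L n (fun _ => False) a) :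
    NumLe ℂ K n (fun _ => False) a := by
  have h1 := (pTRANS ℂ K L n hn (fun y hy => Pool.Agent.Y172.fd_basis hy)
    (fun _ => False)).2.2 a
  apply h1
  have h2 : BdUp (K := K) (L := L) (k := ℂ) (fun _ => False) = fun _ => False := by
    funext Q
    apply propext
    constructor
    · rintro ⟨P, e, -, h⟩
      exact h
    · exact fun h => h.elim
  rw [h2]
  exact h

end Pool.Agent.T2h09.ND
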