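import Mathlib

/-!
Subfields of finite index of finitely generated fields. After `Pool.Agent.TH466.QG.Low` and
`Pool.Agent.Y184.NT.Main2`.
-/

set_option autoImplicit false
set_option linter.overlappingInstances false
set_option linter.unusedSectionVars false

open IntermediateField

namespace Pool.Agent.T2h09.ND

variable {k F K : Type} [Field k] [Field F] [Field K] [Algebra k F] [Algebra k K] [Algebra F K]
  [IsScalarTower k F K]

/-- subfields of finite index of finitely generated fields are finitely generated -/
theorem ess_below [FiniteDimensional F K] [hK : Algebra.EssFiniteType k K] :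
    Algebra.EssFiniteType k F := by
  have hKF : Algebra.IsAlgebraic F K := inferInstance
  obtain ⟨s, hs⟩ := exists_isTranscendenceBasis k F
  -- the transcendence basis is finite
  have hfin : Set.Finite s := by
    have h1 : IsTranscendenceBasis k (algebraMap F K ∘ ((↑) : s → F)) := hs.algebraMap_comp
    have h2 : Algebra.trdeg k K < Cardinal.aleph0 := by
      obtain ⟨T, hT⟩ := IntermediateField.fg_top k K
      have halg : Algebra.IsAlgebraic (Algebra.adjoin k (T : Set K)) K := by
        have h3 : Algebra.IsAlgebraic (IntermediateField.adjoin k (T : Set K)) K := by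
          constructor
          intro x
          have hx : x ∈ IntermediateField.adjoin k (T : Set K) := by
            rw [hT]
            trivial
          exact isAlgebraic_algebraMap (A := K) (⟨x, hx⟩ : IntermediateField.adjoin k (T : Set K))
        open IntermediateField.algebraAdjoinAdjoin in
        exact (IsFractionRing.comap_isAlgebraic_iff (A := Algebra.adjoin k (T : Set K))
          (K := IntermediateField.adjoin k (T : Set K)) (C := K)).2 h3
      obtain ⟨t, ht, hb⟩ := exists_isTranscendenceBasis_subset (R := k) (T : Set K)
      rw [← hb.cardinalMk_eq_trdeg, Cardinal.lt_aleph0_iff_set_finite]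
      exact T.finite_toSet.subset ht
    have h3 := h1.cardinalMk_eq_trdeg
    rw [← h3] at h2
    exact Cardinal.lt_aleph0_iff_set_finite.1 h2
  let A : IntermediateField k F := adjoin k s
  have hA : Algebra.EssFiniteType k A := by
    rw [essFiniteType_iff]
    exact ⟨hfin.toFinset, by rw [Set.Finite.coe_toFinset]⟩
  have t1 : IsScalarTower A F K := inferInstance
  have t2 : IsScalarTower k A K := IsScalarTower.of_algebraMap_eq fun x => by
    rw [IsScalarTower.algebraMap_apply k F K, IsScalarTower.algebraMap_apply A F K,
      ← IsScalarTower.algebraMap_apply k A F]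
  have hAF : Algebra.IsAlgebraic A F := by
    have h1 := hs.isAlgebraic_field
    rwa [Subtype.range_coe] at h1
  have hAK : Algebra.IsAlgebraic A K := Algebra.IsAlgebraic.trans A F K
  have hAess : Algebra.EssFiniteType A K := Algebra.EssFiniteType.of_comp k A K
  have hAKfin : Module.Finite A K := Algebra.finite_of_essFiniteType_of_isAlgebraic
  have hAFfin : Module.Finite A F := by
    refine Module.Finite.of_injective
      ((IsScalarTower.toAlgHom A F K).toLinearMap) (algebraMap F K).injective
  have hAFess : Algebra.EssFiniteType A F := inferInstance
  exact Algebra.EssFiniteType.comp k A F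

theorem trdeg_below [FiniteDimensional F K] {n : ℕ} (htr : Algebra.trdeg k K = n) :
    Algebra.trdeg k F = n := by
  have h1 := trdeg_add_eq k F (A := K)
  have h2 : Algebra.trdeg F K = 0 := by
    rw [trdeg_eq_zero_iff]
    infer_instance
  rw [h2, add_zero, htr] at h1
  exact h1

/-- a basis in a generating set -/
theorem exists_basis {F K : Type} [Field F] [Field K] [Algebra F K] [FiniteDimensional F K]
    (S : Set K) (hS : Submodule.span F S = ⊤) :
    ∃ (ι : Type) (_ : Fintype ι) (h : Module.Basis ι F K), ∀ i, h i ∈ S := by
  obtain ⟨t, hts, hspan, hli⟩ := exists_linearIndependent F S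
  have hb : ⊤ ≤ Submodule.span F (Set.range ((↑) : t → K)) := by
    rw [Subtype.range_coe, hspan, hS]
  let b : Module.Basis t F K := Module.Basis.mk hli hb
  have hfin : Finite t := Module.Finite.finite_basis b
  exact ⟨t, Fintype.ofFinite t, b, fun i => by
    rw [Module.Basis.mk_apply]
    exact hts i.2⟩

end Pool.Agent.T2h09.ND
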