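import Pool.Agent.W619.PQ.Tr

/-!
Norms, discriminants and places: the local computations.
-/

set_option autoImplicit false
set_option linter.overlappingInstances false
set_option linter.unusedSectionVars false

open FF Polynomial Pool.Agent.W603.LV Pool.Agent.W619.PQ

namespace Pool.Agent.T2h09.ND

section

variable {k K : Type*} [Field k] [Field K] [Algebra k K]

theorem exists_unif_zpow (P : Place k K) (c : ℤ) : ∃ a : K, a ≠ 0 ∧ P.ord a = c := by
  obtain ⟨t, ht0, ht⟩ := P.surj
  exact ⟨t ^ c, zpow_ne_zero _ ht0, by rw [P.ord_zpow, ht, mul_one]⟩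

/-- an element with given orders at finitely many places -/
theorem exists_ord (S : Finset (Place k K)) (c : Place k K → ℤ) :
    ∃ g : K, g ≠ 0 ∧ ∀ P ∈ S, P.ord g = c P := by
  classical
  by_cases hS : S = ∅
  · exact ⟨1, one_ne_zero, fun P hP => by rw [hS] at hP; exact absurd hP (Finset.notMem_empty P)⟩
  obtain ⟨P0, hP0⟩ := Finset.nonempty_iff_ne_empty.2 hS
  choose a ha0 ha using fun P : Place k K => exists_unif_zpow P (c P)
  obtain ⟨N, hN⟩ : ∃ N : ℤ, ∀ P ∈ S, c P < N := by
    refine ⟨1 + ∑ P ∈ S, |c P|, fun P hP => ?_⟩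
    have h1 := Finset.single_le_sum (f := fun P : Place k K => |c P|)
      (fun _ _ => abs_nonneg _) hP
    have h2 : c P ≤ |c P| := le_abs_self _
    linarith
  choose b hb1 hb2 using fun P : Place k K => approx_one (S.erase P) P (Finset.notMem_erase P S)
    (a P) N
  have h2 : ∀ P ∈ S, Ge P N (∑ Q ∈ S, b Q - a P) := by
    intro P hP
    rw [← Finset.add_sum_erase _ _ hP]
    have h1 : b P + ∑ Q ∈ S.erase P, b Q - a P = (b P - a P) + ∑ Q ∈ S.erase P, b Q := by ring
    rw [h1]
    refine (hb1 P).add (Ge.sum _ _ fun Q hQ => ?_)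
    rw [Finset.mem_erase] at hQ
    exact hb2 Q P (Finset.mem_erase.2 ⟨hQ.1.symm, hP⟩)
  have h3 : ∀ P ∈ S, (∑ Q ∈ S, b Q) ≠ 0 ∧ P.ord (∑ Q ∈ S, b Q) = c P := by
    intro P hP
    rcases h2 P hP with h | h
    · rw [sub_eq_zero] at h
      rw [h]
      exact ⟨ha0 P, ha P⟩
    · by_cases hz : ∑ Q ∈ S, b Q - a P = 0
      · rw [sub_eq_zero] at hz
        rw [hz]
        exact ⟨ha0 P, ha P⟩
      have h1 := P.ord_add_eq (ha0 P) hz (by rw [ha P]; exact (hN P hP).trans_le h)
      rw [add_sub_cancel, ha P] at h1
      exact h1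
  exact ⟨_, (h3 P0 hP0).1, fun P hP => (h3 P hP).2⟩

end

section

variable {k K F : Type*} [Field k] [Field K] [Field F] [Algebra k K] [Algebra k F] [Algebra K F]
  [IsScalarTower k K F]

/-- the norm of an element which is regular at all places over `q` is regular at `q` -/
theorem norm_reg [CharZero k] [FiniteDimensional K F] (q : Place k K) (y : F)
    (hy : ∀ (w : Place k F) (e : ℕ), Over w q e → Ge w 0 y) :
    Ge q 0 (Algebra.norm K y) := by
  classical
  let iA : Algebra q.O F := algO q
  have : IsDiscreteValuationRing q.O := q.isDVR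
  have : CharZero K := charZero_of_injective_algebraMap (algebraMap k K).injective
  have : IsScalarTower q.O K F := IsScalarTower.of_algebraMap_eq fun _ => rfl
  have h1 : IsIntegral q.O y := isIntegral_of_reg q y hy
  have h2 : IsIntegral q.O (Algebra.norm K y) := Algebra.isIntegral_norm K h1
  obtain ⟨z, hz⟩ := IsIntegrallyClosed.algebraMap_eq_of_integral (R := q.O) (K := K) h2
  rw [← hz]
  exact z.2

end

section

variable {K L : Type*} [Field K] [Field L] [Algebra K L] {ι : Type*} [Fintype ι] [DecidableEq ι]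

/-- the determinant of the trace form which is twisted by `g` -/
theorem det_trace_mul (h : Module.Basis ι K L) (g : L) :
    (Matrix.of fun i j => Algebra.trace K L (g * h i * h j) : Matrix ι ι K).det =
      Algebra.norm K g * Algebra.discr K h := by
  have h1 : (Matrix.of fun i j => Algebra.trace K L (g * h i * h j) : Matrix ι ι K) =
      Algebra.traceMatrix K h * Algebra.leftMulMatrix h g := by
    ext i j
    rw [Matrix.of_apply, Matrix.mul_apply]
    have h2 : g * h j = ∑ l, Algebra.leftMulMatrix h g l j • h l := by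
      have h3 := h.sum_repr (g * h j)
      conv_lhs => rw [← h3]
      refine Finset.sum_congr rfl fun l _ => ?_
      rw [Algebra.leftMulMatrix_eq_repr_mul]
    have h4 : g * h i * h j = ∑ l, Algebra.leftMulMatrix h g l j • (h i * h l) := by
      have h5 : g * h i * h j = h i * (g * h j) := by ring
      rw [h5, h2, Finset.mul_sum]
      refine Finset.sum_congr rfl fun l _ => ?_
      rw [mul_smul_comm]
    rw [h4, map_sum]
    refine Finset.sum_congr rfl fun l _ => ?_
    rw [map_smul, smul_eq_mul, mul_comm]
    rfl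
  rw [h1, Matrix.det_mul, mul_comm, Algebra.norm_eq_matrix_det h]
  rfl

end

end Pool.Agent.T2h09.ND
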