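import Mathlib

/-!
Algebraically independent elements of a set of generators; values of characteristic polynomials.
-/

set_option autoImplicit false
set_option linter.overlappingInstances false
set_option linter.unusedSectionVars false

open Polynomial

namespace Pool.Agent.T2h09.ND

section

open IntermediateField.algebraAdjoinAdjoin in
/-- if the field generated by `S` has `a` algebraically independent elements up to algebraic
elements, then so does `S` -/
theorem exists_indep {L : Type} [Field L] [Algebra ℂ L] (S : Set L) {a : ℕ} {u : Fin a → L}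
    (hu : AlgebraicIndependent ℂ u)
    (halg : ∀ j, IsAlgebraic (IntermediateField.adjoin ℂ S) (u j)) :
    ∃ s : Fin a → L, (∀ i, s i ∈ S) ∧ AlgebraicIndependent ℂ s := by
  classical
  obtain ⟨M, hM⟩ : ∃ M, M = AlgebraicIndependent.matroid ℂ L := ⟨_, rfl⟩
  have hind : M.Indep (Set.range u) := by
    rw [hM, AlgebraicIndependent.matroid_indep_iff]
    exact hu.coe_range
  have hcl : Set.range u ⊆ M.closure S := by
    rintro _ ⟨j, rfl⟩
    rw [hM, AlgebraicIndependent.matroid_closure_eq]
    change IsAlgebraic (Algebra.adjoin ℂ S) (u j)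
    exact (IsFractionRing.isAlgebraic_iff (Algebra.adjoin ℂ S)
      (IntermediateField.adjoin ℂ S) L).2 (halg j)
  obtain ⟨t, ht⟩ := M.exists_isBasis S (by rw [hM]; exact Set.subset_univ _)
  have h1 : (Set.range u).encard ≤ t.encard := by
    rw [ht.encard_eq_eRk, ← M.eRk_closure_eq S]
    exact (hind.encard_le_eRk_of_subset hcl)
  have h2 : (Set.range u).encard = a := by
    rw [← Set.image_univ, hu.injective.injOn.encard_image, Set.encard_univ]
    simp
  rw [h2] at h1
  obtain ⟨r, hrt, hr⟩ := Set.exists_subset_encard_eq h1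
  have hrfin : r.Finite := Set.finite_of_encard_eq_coe hr
  have := hrfin.fintype
  have hcard : Fintype.card r = a := by
    have h3 : r.encard = Fintype.card r := by
      rw [← Set.coe_fintypeCard]
    rw [hr] at h3
    exact_mod_cast h3.symm
  let e := (Fintype.equivFinOfCardEq hcard).symm
  have hri : AlgebraicIndepOn ℂ id r := by
    have h4 := ht.indep.subset hrt
    rw [hM, AlgebraicIndependent.matroid_indep_iff] at h4
    exact h4
  refine ⟨fun i => (e i : L), fun i => ht.subset (hrt (e i).2), ?_⟩
  exact hri.comp e e.injective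

end

section

variable {K L : Type} [Field K] [Field L] [Algebra ℂ K] [Algebra ℂ L] [Algebra K L]
  [IsScalarTower ℂ K L] [FiniteDimensional K L]

/-- the norm of `c - u` is a value of the characteristic polynomial -/
theorem norm_sub (u : L) (c : K) :
    Algebra.norm K (algebraMap K L c - u) = (Algebra.lmul K L u).charpoly.eval c := by
  rw [LinearMap.eval_charpoly, Algebra.norm_apply]
  congr 1
  ext z
  simp [Algebra.smul_def]

/-- an element `u` is algebraic over a field which contains the norms of `c - u` -/
theorem alg_of_norms (u : L) (E : IntermediateField ℂ K)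
    (hE : ∀ c : ℂ, Algebra.norm K (algebraMap ℂ L c - u) ∈ E) : IsAlgebraic E u := by
  classical
  obtain ⟨χ, hχ⟩ : ∃ χ, χ = (Algebra.lmul K L u).charpoly := ⟨_, rfl⟩
  have hmon : χ.Monic := by rw [hχ]; exact LinearMap.charpoly_monic _
  have hroot : aeval u χ = 0 := by
    have h1 := LinearMap.aeval_self_charpoly (Algebra.lmul K L u)
    rw [← hχ] at h1
    have h2 : aeval ((Algebra.lmul K L) u) χ = (Algebra.lmul K L) (aeval u χ) :=
      aeval_algHom_apply (Algebra.lmul K L) u χ
    rw [h2] at h1
    have h3 := LinearMap.congr_fun h1 1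
    simpa using h3
  have hval : ∀ c : ℂ, χ.eval (algebraMap ℂ K c) ∈ E := by
    intro c
    have h1 := hE c
    rw [IsScalarTower.algebraMap_apply ℂ K L, norm_sub, ← hχ] at h1
    exact h1
  obtain ⟨r, hr⟩ : ∃ r, r = χ.natDegree := ⟨_, rfl⟩
  let v : Fin (r + 1) → E := fun i => algebraMap ℂ E ((i : ℕ) : ℂ)
  have hv : Set.InjOn v (Finset.univ : Finset (Fin (r + 1))) := by
    intro i _ j _ hij
    have h1 := (algebraMap ℂ E).injective hij
    have h2 : (i : ℕ) = (j : ℕ) := by exact_mod_cast h1
    exact Fin.ext h2
  let w : Fin (r + 1) → E := fun i => ⟨χ.eval (algebraMap ℂ K ((i : ℕ) : ℂ)), hval _⟩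
  obtain ⟨p, hp⟩ : ∃ p, p = Lagrange.interpolate Finset.univ v w := ⟨_, rfl⟩
  have hvK : Set.InjOn (fun i => algebraMap E K (v i)) (Finset.univ : Finset (Fin (r + 1))) := by
    intro i hi j hj hij
    exact hv hi hj ((algebraMap E K).injective hij)
  have hpχ : p.map (algebraMap E K) = χ := by
    refine Polynomial.eq_of_degrees_lt_of_eval_index_eq (s := Finset.univ)
      (v := fun i => algebraMap E K (v i)) hvK ?_ ?_ fun i _ => ?_
    · rw [Polynomial.degree_map, hp]
      refine (Lagrange.degree_interpolate_lt w hv)
    · rw [Finset.card_univ, Fintype.card_fin, hr]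
      exact lt_of_le_of_lt Polynomial.degree_le_natDegree
        (by exact_mod_cast Nat.lt_succ_self _)
    · rw [Polynomial.eval_map_algebraMap, Polynomial.aeval_algebraMap_apply,
        Polynomial.coe_aeval_eq_eval, hp, Lagrange.eval_interpolate_at_node w hv (Finset.mem_univ i)]
      rfl
  refine ⟨p, ?_, ?_⟩
  · rintro rfl
    rw [Polynomial.map_zero] at hpχ
    exact hmon.ne_zero hpχ.symm
  · rw [← hroot, ← hpχ, Polynomial.aeval_map_algebraMap]

end

end Pool.Agent.T2h09.ND
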