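import Pool.Agent.T2h09.ND.Alg
import Pool.Agent.Y184.NT.TrForm

/-!
Norms of pluricanonical forms times powers of the discriminant are regular.
-/

set_option autoImplicit false
set_option linter.overlappingInstances false
set_option linter.unusedSectionVars false

open FF Polynomial Pool.Agent.W603.LV Pool.Agent.W619.PQ Pool.Agent.W602.GT Pool.Agent.Y172
open Pool.Agent.Y692.NT

namespace Pool.Agent.T2h09.ND

section

variable {k K L : Type} [Field k] [CharZero k] [Field K] [Field L] [Algebra k K] [Algebra k L]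
  [Algebra K L] [IsScalarTower k K L] [FiniteDimensional K L]
  {ι : Type} [Fintype ι] [DecidableEq ι]

theorem det_reg (P : Place k K) (A : Matrix ι ι K) (hA : ∀ i j, Ge P 0 (A i j)) :
    Ge P 0 A.det := by
  have h1 : A = P.O.subtype.mapMatrix (Matrix.of fun i j => (⟨A i j, hA i j⟩ : P.O)) := by
    ext i j
    rfl
  rw [h1, ← RingHom.map_det]
  exact (Matrix.det (Matrix.of fun i j => (⟨A i j, hA i j⟩ : P.O))).2

/-- **The local lemma**: `N (θ) disc (h) ^ m` is regular at `P`. -/
theorem norm_disc_reg (P : Place k K) (h : Module.Basis ι K L) (m : ℕ) (θ : L)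
    (hθ : ∀ (Q : Place k L) (e : ℕ), Over Q P e → ∀ j, Ge Q (m * (1 - (e : ℤ))) (h j ^ (2 * m) * θ)) :
    Ge P 0 (Algebra.norm K θ * Algebra.discr K h ^ m) := by
  classical
  have hne : Nonempty ι := h.index_nonempty
  have hK : CharZero K := charZero_of_injective_algebraMap (algebraMap k K).injective
  by_cases hθ0 : θ = 0
  · left
    rw [hθ0, Algebra.norm_zero, zero_mul]
  obtain ⟨S, T, hS, hT, -⟩ := exists_places_over (K' := L) P
  have hT' : ∀ Q ∈ S, ∃ e : ℕ, Over Q P e := fun Q hQ => by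
    obtain ⟨e, he, -⟩ := hT Q hQ
    exact ⟨e, he⟩
  -- the minimal orders of the basis
  have hmin : ∀ Q : Place k L, ∃ j, ∀ i, Q.ord (h j) ≤ Q.ord (h i) := fun Q =>
    Finite.exists_min fun i => Q.ord (h i)
  choose j0 hj0 using hmin
  have hex : ∀ Q : Place k L, ∃ e : ℕ, Q ∈ S → Over Q P e := by
    intro Q
    by_cases hQ : Q ∈ S
    · obtain ⟨e, he⟩ := hT' Q hQ
      exact ⟨e, fun _ => he⟩
    · exact ⟨0, fun h => absurd h hQ⟩
  choose e he using hex
  obtain ⟨g, hg0, hg⟩ := exists_ord S fun Q => (1 - (e Q : ℤ)) - 2 * Q.ord (h (j0 Q))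
  have hh0 : ∀ j, h j ≠ 0 := fun j => h.ne_zero j
  have hev : ∀ (Q : Place k L) (e' : ℕ), Over Q P e' → Q ∈ S ∧ e' = e Q := by
    intro Q e' h'
    have hQ := hS Q e' h'
    exact ⟨hQ, (Pool.Agent.Y172.over_unique' h' (he Q hQ)).2⟩
  -- the determinant of the twisted trace form
  have h1 : Ge P 0 (Algebra.norm K g * Algebra.discr K h) := by
    rw [← det_trace_mul h g]
    refine det_reg P _ fun i j => ?_
    rw [Matrix.of_apply]
    refine Pool.Agent.Y692.NT.trace_reg P _ fun Q e' h' => ?_
    obtain ⟨hQ, rfl⟩ := hev Q e' h'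
    right
    rw [Q.ord_mul (mul_ne_zero hg0 (hh0 i)) (hh0 j), Q.ord_mul hg0 (hh0 i), hg Q hQ]
    have h2 := hj0 Q i
    have h3 := hj0 Q j
    linarith
  have h2 : Ge P 0 (Algebra.norm K (θ / g ^ m)) := by
    refine norm_reg P _ fun Q e' h' => ?_
    obtain ⟨hQ, rfl⟩ := hev Q e' h'
    right
    rw [Q.ord_div hθ0 (pow_ne_zero _ hg0), Q.ord_pow, hg Q hQ]
    have h3 := (hθ Q _ h' (j0 Q)).resolve_left (mul_ne_zero (pow_ne_zero _ (hh0 _)) hθ0)
    rw [Q.ord_mul (pow_ne_zero _ (hh0 _)) hθ0, Q.ord_pow] at h3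
    push_cast at h3
    linarith
  have h3 : Algebra.norm K θ * Algebra.discr K h ^ m =
      Algebra.norm K (θ / g ^ m) * (Algebra.norm K g * Algebra.discr K h) ^ m := by
    have hg1 : θ = θ / g ^ m * g ^ m := by
      rw [div_mul_cancel₀ _ (pow_ne_zero _ hg0)]
    conv_lhs => rw [hg1, map_mul, map_pow]
    ring
  rw [h3]
  have h4 := h2.mul (h1.pow m)
  simpa using h4

end

section

variable {K : Type} [Field K] [Algebra ℂ K] {n : ℕ}

/-- the form of weight `M` with the value `t` in the coordinates `y` -/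
noncomputable def pf (y : Fin n → K) (M : ℕ) (t : K) (D : Fin n → Derivation ℂ K K) : K :=
  (Matrix.of fun i j => D i (y j) : Matrix (Fin n) (Fin n) K).det ^ M * t

theorem pf_pluri (y : Fin n → K) (M : ℕ) (t : K) : IsPluri M (pf y M t) := by
  intro A D
  have e1 : (Matrix.of fun a b => (∑ j, A a j • D j) (y b)) =
      A * Matrix.of fun a b => D a (y b) := by
    ext a b
    rw [Matrix.of_apply, Matrix.mul_apply, sum_smul_apply]
    rfl
  change (Matrix.of fun a b => (∑ j, A a j • D j) (y b)).det ^ M * _ = _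
  rw [e1, Matrix.det_mul, mul_pow, mul_assoc]
  rfl

theorem pf_self {y : Fin n → K} {E : Fin n → Derivation ℂ K K}
    (hE : ∀ i j, E i (y j) = if i = j then 1 else 0) (M : ℕ) (t : K) : pf y M t E = t := by
  have h1 : (Matrix.of fun i j => E i (y j) : Matrix (Fin n) (Fin n) K) = 1 := by
    ext i j
    rw [Matrix.of_apply, hE, Matrix.one_apply]
  rw [pf, h1, Matrix.det_one, one_pow, one_mul]

theorem derReg_of_log {P : Place ℂ K} {D : Derivation ℂ K K} (h : DerLog P D) : DerReg P D := by
  intro f hf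
  by_cases hf0 : f = 0
  · rw [hf0, map_zero]
    exact Or.inl rfl
  have h1 := P.reg_mul (h f) hf
  rwa [div_mul_cancel₀ _ hf0] at h1

end

section

variable {K L : Type} [Field K] [Field L] [Algebra ℂ K] [Algebra ℂ L] [Algebra K L]
  [IsScalarTower ℂ K L] [FiniteDimensional K L] [Algebra.EssFiniteType ℂ K]
  [Algebra.EssFiniteType ℂ L] {n : ℕ} {ι : Type} [Fintype ι] [DecidableEq ι]

/-- **The norm of a form times a power of the discriminant is regular.** -/
theorem normForm_reg (hn : Algebra.trdeg ℂ K = n) {y : Fin n → K} {E : Fin n → Derivation ℂ K K}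
    (hy : IsTranscendenceBasis ℂ y) (hE : ∀ i j, E i (y j) = if i = j then 1 else 0)
    {E' : Fin n → Derivation ℂ L L}
    (hE' : ∀ i f, E' i (algebraMap K L f) = algebraMap K L (E i f)) (h : Module.Basis ι K L)
    {m : ℕ} {W : (Fin n → Derivation ℂ L L) → L} (hW : IsPluri m W)
    (hreg : ∀ Q : Place ℂ L, Divisorial n Q → ∀ j, RegAt Q fun D => h j ^ (2 * m) * W D)
    (P : Place ℂ K) (hP : Divisorial n P) :
    RegAt P (pf y (Module.finrank K L * m) (Algebra.norm K (W E') * Algebra.discr K h ^ m)) := by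
  classical
  have hnL : Algebra.trdeg ℂ L = n := trdeg_up (K := K) hn
  intro G hG
  obtain ⟨yP, EP, i0, hl⟩ := exists_loc hn hP
  choose EP' hEP' using fun i => exists_lift (L := L) hn (EP i)
  obtain ⟨B, hB⟩ : ∃ B : Matrix (Fin n) (Fin n) K, B = Matrix.of fun i j => E i (yP j) :=
    ⟨_, rfl⟩
  have hC : (Matrix.of fun i j => G i (yP j) : Matrix (Fin n) (Fin n) K).det =
      (Matrix.of fun i j => G i (y j) : Matrix (Fin n) (Fin n) K).det * B.det := by
    rw [← Matrix.det_mul]
    congr 1
    ext i j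
    rw [Matrix.of_apply, Matrix.mul_apply, hB]
    have h1 := Pool.Agent.W73.PG.PULL.expand y hy E hE (G i)
    conv_lhs => rw [← h1]
    rw [sum_smul_apply]
    rfl
  have hWB : W E' = algebraMap K L B.det ^ m * W EP' := by
    have h1 := pluri_coord (hl.bas.algebraMap_comp (A := L)) (lift_dual hl.dual hEP') hW E'
    rw [h1]
    congr 2
    rw [hB, RingHom.map_det]
    congr 1
    ext i j
    rw [Matrix.of_apply, RingHom.mapMatrix_apply, Matrix.map_apply, Matrix.of_apply]
    exact hE' i (yP j)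
  have hval : pf y (Module.finrank K L * m) (Algebra.norm K (W E') * Algebra.discr K h ^ m) G =
      (Matrix.of fun i j => G i (yP j) : Matrix (Fin n) (Fin n) K).det ^
        (Module.finrank K L * m) * (Algebra.norm K (W EP') * Algebra.discr K h ^ m) := by
    rw [pf, hC, hWB, map_mul, map_pow, Algebra.norm_algebraMap]
    ring
  rw [hval]
  refine P.reg_mul ?_ ?_
  · have h9 : Ge P 0 (Matrix.of fun i j => G i (yP j) : Matrix (Fin n) (Fin n) K).det :=
      ge_det P _ _ (fun _ _ => 0) (fun a b => hG a _ (hl.reg b)) fun σ => by simp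
    have h10 := h9.pow (Module.finrank K L * m)
    rw [mul_zero] at h10
    exact h10
  · refine norm_disc_reg P h m (W EP') fun Q e hQ j => ?_
    have hQd : Divisorial n Q := divisorial_up hQ hP
    have hW' : IsPluri m fun D => h j ^ (2 * m) * W D := by
      intro A D
      change h j ^ (2 * m) * W _ = _
      rw [hW A D]
      ring
    have h1 := down_ge hnL hQ hQd hl hEP' hW' (c := 0) (fun G' hG' => by
      rcases hreg Q hQd j G' hG' with h | h
      · exact Or.inl h
      · exact Or.inr (by exact_mod_cast h))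
    rcases h1 with h1 | h1
    · exact Or.inl h1
    · right
      have h2 : (((m : ℤ) * (1 - (e : ℤ)) : ℤ) : ℝ) ≤ (Q.ord (h j ^ (2 * m) * W EP') : ℝ) := by
        push_cast
        linarith
      exact_mod_cast h2

end

end Pool.Agent.T2h09.ND
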