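import Pool.Agent.T2h09.ND.Loc
import Pool.Agent.T2h09.ND.Ind
import Pool.Agent.W602.GT.KDefs

/-!
Descent of Kodaira dimensions by norms and discriminants.
-/

set_option autoImplicit false
set_option linter.overlappingInstances false
set_option linter.unusedSectionVars false

open FF Polynomial Pool.Agent.W603.LV Pool.Agent.W619.PQ Pool.Agent.W602.GT Pool.Agent.Y172
open Pool.Agent.Y692.NT

namespace Pool.Agent.T2h09.ND

section

variable {K L : Type} [Field K] [Field L] [Algebra ℂ K] [Algebra ℂ L] [Algebra K L]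
  [IsScalarTower ℂ K L] [FiniteDimensional K L] {n : ℕ}

/-- **Kodaira dimension from algebraic ratios of values.** -/
theorem kodGe_of_values {y : Fin n → K} {E : Fin n → Derivation ℂ K K}
    (hE : ∀ i j, E i (y j) = if i = j then 1 else 0) {M : ℕ} (hM : 0 < M) {ι' : Type}
    (T : ι' → K) (f0 : ι') (hT0 : T f0 ≠ 0)
    (hreg : ∀ f, ∀ P : Place ℂ K, Divisorial n P → RegAt P (pf y M (T f))) {a : ℕ}
    {u : Fin a → L} (hu : AlgebraicIndependent ℂ u)
    (halg : ∀ j, IsAlgebraic (IntermediateField.adjoin ℂ (Set.range fun f => T f / T f0)) (u j)) :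
    KodGe ℂ K n (fun _ => False) a := by
  classical
  obtain ⟨S, hS⟩ : ∃ S : Set K, S = Set.range fun f => T f / T f0 := ⟨_, rfl⟩
  rw [← hS] at halg
  have halg' : ∀ j, IsAlgebraic (IntermediateField.adjoin ℂ (algebraMap K L '' S)) (u j) := by
    intro j
    obtain ⟨p, hp0, hp⟩ := halg j
    have hmem : ∀ c : IntermediateField.adjoin ℂ S, algebraMap K L c ∈
        IntermediateField.adjoin ℂ (algebraMap K L '' S) := by
      intro c
      have h1 : IntermediateField.adjoin ℂ (algebraMap K L '' S) =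
          (IntermediateField.adjoin ℂ S).map (IsScalarTower.toAlgHom ℂ K L) := by
        rw [IntermediateField.adjoin_map]
        rfl
      rw [h1]
      exact ⟨c, c.2, rfl⟩
    let φ : IntermediateField.adjoin ℂ S →+* IntermediateField.adjoin ℂ (algebraMap K L '' S) :=
      (((algebraMap K L).comp (algebraMap (IntermediateField.adjoin ℂ S) K)).codRestrict _ hmem)
    refine ⟨p.map φ, ?_, ?_⟩
    · exact (Polynomial.map_ne_zero_iff φ.injective).2 hp0
    · rw [Polynomial.aeval_def, Polynomial.eval₂_map]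
      exact hp
  obtain ⟨s, hsS, hs⟩ := exists_indep (algebraMap K L '' S) hu halg'
  choose t htS ht using hsS
  have hti : AlgebraicIndependent ℂ t := by
    refine AlgebraicIndependent.of_comp (IsScalarTower.toAlgHom ℂ K L) ?_
    have h1 : (IsScalarTower.toAlgHom ℂ K L) ∘ t = s := by
      funext i
      exact ht i
    rw [h1]
    exact hs
  rw [hS] at htS
  choose f hf using htS
  refine ⟨M, hM, Fin.cons (pf y M (T f0)) fun i => pf y M (T (f i)), fun j => ?_, E, ?_, ?_⟩
  · have h1 : ∀ g, LogSec ℂ K n M (fun _ => False) (pf y M (T g)) := fun g =>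
      ⟨pf_pluri y M _, fun P hP D hD => hreg g P hP D fun i => derReg_of_log (hD i),
        fun P hP _ => hreg g P hP⟩
    induction j using Fin.cases with
    | zero => exact h1 f0
    | succ i => exact h1 (f i)
  · rw [Fin.cons_zero, pf_self hE]
    exact hT0
  · have h1 : (fun i : Fin a => (Fin.cons (pf y M (T f0)) (fun i => pf y M (T (f i))) :
        Fin (a + 1) → (Fin n → Derivation ℂ K K) → K) i.succ E /
        (Fin.cons (pf y M (T f0)) (fun i => pf y M (T (f i))) :
        Fin (a + 1) → (Fin n → Derivation ℂ K K) → K) 0 E) = t := by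
      funext i
      rw [Fin.cons_succ, Fin.cons_zero, pf_self hE, pf_self hE]
      exact hf i
    rw [h1]
    exact hti

/-- **Descent of the Kodaira dimension.** -/
theorem kodGe_descent [Algebra.EssFiniteType ℂ K] [Algebra.EssFiniteType ℂ L]
    (hn : Algebra.trdeg ℂ K = n) {ι : Type} [Fintype ι] (h : Module.Basis ι K L) {m : ℕ}
    (hm : 0 < m) {a : ℕ} (W : Fin (a + 1) → (Fin n → Derivation ℂ L L) → L)
    (hW : ∀ i, IsPluri m (W i))
    (hreg : ∀ i, ∀ Q : Place ℂ L, Divisorial n Q → ∀ j, RegAt Q fun D => h j ^ (2 * m) * W i D)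
    (hind : ∃ D, W 0 D ≠ 0 ∧ AlgebraicIndependent ℂ fun i : Fin a => W i.succ D / W 0 D) :
    KodGe ℂ K n (fun _ => False) a := by
  classical
  obtain ⟨y, E, hy, hE⟩ := exists_crd (k := ℂ) (K := K) hn
  choose E' hE' using fun i => exists_lift (L := L) hn (E i)
  have hyL : IsTranscendenceBasis ℂ (fun j => algebraMap K L (y j)) := hy.algebraMap_comp
  have hEL := lift_dual hE hE'
  obtain ⟨D, hD0, hDind⟩ := hind
  -- the ratios in the frame `E'`
  have hco : ∀ i, W i D = (Matrix.of fun i j => D i (algebraMap K L (y j))).det ^ m * W i E' :=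
    fun i => pluri_coord hyL hEL (hW i) D
  have hdet : (Matrix.of fun i j => D i (algebraMap K L (y j)) :
      Matrix (Fin n) (Fin n) L).det ^ m ≠ 0 := by
    intro h0
    apply hD0
    rw [hco, h0, zero_mul]
  have hW0 : W 0 E' ≠ 0 := by
    intro h0
    apply hD0
    rw [hco, h0, mul_zero]
  obtain ⟨u, hu⟩ : ∃ u : Fin a → L, u = fun i => W i.succ E' / W 0 E' := ⟨_, rfl⟩
  have hind : AlgebraicIndependent ℂ u := by
    have h1 : (fun i : Fin a => W i.succ D / W 0 D) = u := by
      funext i
      rw [hco, hco, hu, mul_div_mul_left _ _ hdet]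
    rw [← h1]
    exact hDind
  have hdisc : Algebra.discr K h ≠ 0 := by
    have hcK : CharZero K := charZero_of_injective_algebraMap (algebraMap ℂ K).injective
    exact Algebra.discr_not_zero_of_basis K h
  have hcomb : ∀ (i : Fin (a + 1)) (c : ℂ), IsPluri m fun D => algebraMap ℂ L c * W 0 D - W i D := by
    intro i c A D
    change algebraMap ℂ L c * W 0 _ - W i _ = _
    rw [hW 0 A D, hW i A D]
    ring
  have hcombreg : ∀ (i : Fin (a + 1)) (c : ℂ), ∀ Q : Place ℂ L, Divisorial n Q → ∀ j,
      RegAt Q fun D => h j ^ (2 * m) * (algebraMap ℂ L c * W 0 D - W i D) := by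
    intro i c Q hQ j G hG
    have h1 := hreg 0 Q hQ j G hG
    have h2 := hreg i Q hQ j G hG
    have h3 : h j ^ (2 * m) * (algebraMap ℂ L c * W 0 G - W i G) =
        algebraMap ℂ L c * (h j ^ (2 * m) * W 0 G) - h j ^ (2 * m) * W i G := by ring
    change Q.Reg (h j ^ (2 * m) * (algebraMap ℂ L c * W 0 G - W i G))
    rw [h3, sub_eq_add_neg]
    exact Q.reg_add (Q.reg_mul (Q.reg_const c) h1) (Q.reg_neg h2)
  let T : Option (Fin (a + 1) × ℂ) → K := fun f => match f with
    | none => Algebra.norm K (W 0 E') * Algebra.discr K h ^ m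
    | some (i, c) => Algebra.norm K (algebraMap ℂ L c * W 0 E' - W i E') * Algebra.discr K h ^ m
  have hN0 : Algebra.norm K (W 0 E') ≠ 0 := by
    rw [Ne, Algebra.norm_eq_zero_iff]
    exact hW0
  refine kodGe_of_values (L := L) hE (M := Module.finrank K L * m)
    (Nat.mul_pos Module.finrank_pos hm) T none (mul_ne_zero hN0 (pow_ne_zero _ hdisc))
    (fun f P hP => ?_) hind fun j => ?_
  · match f with
    | none => exact normForm_reg hn hy hE hE' h (hW 0) (hreg 0) P hP
    | some (i, c) => exact normForm_reg hn hy hE hE' h (hcomb i c) (hcombreg i c) P hP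
  · refine alg_of_norms (u j) _ fun c => IntermediateField.subset_adjoin _ _ ⟨some (j.succ, c), ?_⟩
    change Algebra.norm K (algebraMap ℂ L c * W 0 E' - W j.succ E') * Algebra.discr K h ^ m /
      (Algebra.norm K (W 0 E') * Algebra.discr K h ^ m) = _
    rw [mul_div_mul_right _ _ (pow_ne_zero _ hdisc), div_eq_iff hN0, ← map_mul]
    congr 1
    rw [hu, sub_mul, div_mul_cancel₀ _ hW0]

end

end Pool.Agent.T2h09.ND
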